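import Pool.Agent.H5.BHG.Stmts4

/-!
Row MN2 of the board bh2 (MP_e3dc0b_lc), helper85.
-/

set_option autoImplicit false

namespace Pool.BHG

open Filter TMLib Pool.PG Pool.DPG

theorem mn2_thm : MN2Stmt := by
  intro t g hg v _ D B hD hB hDt hBt
  rcases Bool.eq_false_or_eq_true (own g v) with hv | hv
  · obtain ⟨d, hd, w, hw, h⟩ := hg D B (fun d hd => ⟨(hD d hd).1, by rw [(hD d hd).2.1, hv]⟩)
      (fun w hw => ⟨(hB w hw).1, by
        have h1 := (hB w hw).2.1
        rw [hv] at h1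
        exact Bool.eq_false_of_not_eq_true h1⟩) hDt hBt
    exact ⟨d, hd, w, hw, h⟩
  · obtain ⟨w, hw, d, hd, h⟩ := hg B D (fun w hw => ⟨(hB w hw).1, by
        have h1 := (hB w hw).2.1
        rw [hv] at h1
        exact Bool.eq_true_of_not_eq_false h1⟩)
      (fun d hd => ⟨(hD d hd).1, by rw [(hD d hd).2.1, hv]⟩) hBt hDt
    refine ⟨d, hd, w, hw, ?_⟩
    rcases h with h | h | ⟨u, hu, hu'⟩
    · exact Or.inr (Or.inl h)
    · exact Or.inl h
    · exact Or.inr (Or.inr ⟨u, hu', hu⟩)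

end Pool.BHG
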