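import Pool.Agent.H5.BHG.Stmts4

/-!
Row PC2 of the board bh2 (MP_e3dc0b_lc), helper85 (second seat): the candidates in polynomial time.
-/

set_option autoImplicit false

namespace Pool.BHG

open Filter TMLib Pool.PG Pool.DPG

theorem pc2_thm85 : PC2Stmt := by
  have g1 : PTime fun p : Game × ℕ => p.1 := PTime.fst PTime.id
  have v1 : PTime fun p : Game × ℕ => p.2 := PTime.snd PTime.id
  have h1 : PTime fun p : Game × ℕ => own p.1 p.2 := PFN66.own' pv1_row g1 v1
  have g2 : PTime fun q : (Game × ℕ) × ℕ => q.1.1 := PTime.fst (PTime.fst PTime.id)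
  have v2 : PTime fun q : (Game × ℕ) × ℕ => q.1.2 := PTime.snd (PTime.fst PTime.id)
  have u2 : PTime fun q : (Game × ℕ) × ℕ => q.2 := PTime.snd PTime.id
  have h2 : PTime fun q : (Game × ℕ) × ℕ => !decide (q.2 = q.1.2) &&
      !decide (q.2 ∈ suc q.1.1 q.1.2) :=
    PTime.and (PTime.not (PTime.eq u2 v2)) (PTime.not (PFN66.mem' (PFN66.suc' pv1_row g2 v2) u2))
  have h3 : PTime fun p : Game × ℕ => msk p.1.length fun u => !decide (u = p.2) &&
      !decide (u ∈ suc p.1 p.2) :=
    PFN66.msk' (g := fun p : Game × ℕ => p.1) (f := fun p u => !decide (u = p.2) &&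
      !decide (u ∈ suc p.1 p.2)) g1 h2
  exact (PTime.map (l := fun g : Game => List.range g.length)
    (g := fun g v => (own g v, msk g.length fun u => !decide (u = v) && !decide (u ∈ suc g v)))
    (PTime.range (PTime.length PTime.id)) (PTime.pair h1 h3)).congr fun _ => rfl

end Pool.BHG
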