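import Pool.Agent.H5.BHG.Stmts

/-!
Row PFG of the board bhg (MP_e3dc0b_lc), helper85: the regions which are found, in polynomial time.
-/

set_option autoImplicit false

namespace Pool.BHG

open Filter TMLib Pool.PG Pool.DPG

section

variable {α : Type} [Enc α]

theorem pfg_yy {g : α → Game} {X : α → List Bool} {q : α → Bool × List Bool} (hg : PTime g)
    (hX : PTime X) (hq : PTime q) : PTime (fun x => yy (g x) (X x) (q x)) :=
  (PFN66.dif' pma_all hg hX (PFN66.att' pma_all (PTime.not (PTime.fst hq)) hg hX
    (PFN66.dif' pma_all hg hX (PTime.snd hq)))).congr fun _ => rfl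

theorem pfg_S {S : Game → List Bool → List Bool}
    (hS : PTime (fun p : Game × List Bool => S p.1 p.2)) {g : α → Game} {X : α → List Bool}
    (hg : PTime g) (hX : PTime X) : PTime (fun x => S (g x) (X x)) :=
  hS.comp (f := fun x => (g x, X x)) (PTime.pair hg hX)

theorem pfg_cd {S : Game → List Bool → List Bool}
    (hS : PTime (fun p : Game × List Bool => S p.1 p.2)) {g : α → Game} {X : α → List Bool}
    {q : α → Bool × List Bool} (hg : PTime g) (hX : PTime X) (hq : PTime q) :
    PTime (fun x => cd S (g x) (X x) (q x)) := by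
  have hY := pfg_yy hg hX hq
  have hB := pfg_S hS hg hY
  refine (PTime.ite (c := fun x => S (g x) (yy (g x) (X x) (q x)) = [])
    (PTime.eq hB (PTime.const [])) (PTime.const []) (PFN66.msk' (g := g)
      (f := fun x v => (yy (g x) (X x) (q x)).getD v false &&
        ((S (g x) (yy (g x) (X x) (q x))).getD v false == (q x).1)) hg ?_)).congr
    fun _ => rfl
  have up : ∀ {β : Type} [Enc β] {f : α → β}, PTime f → PTime fun r : α × ℕ => f r.1 := fun hf =>
    hf.comp (PTime.fst PTime.id)
  have w2 : PTime fun r : α × ℕ => r.2 := PTime.snd PTime.id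
  exact PTime.and (PFN66.gt (up hY) w2) (PFN66.beq' (PFN66.gt (up hB) w2) (up (PTime.fst hq)))

end

theorem pfg_fd {S : Game → List Bool → List Bool} {C : Game → List (Bool × List Bool)}
    (hS : PTime (fun p : Game × List Bool => S p.1 p.2)) (hC : PTime C) :
    PTime (fun p : Game × List Bool => fd S C p.1 p.2) := by
  have g1 : PTime fun r : (Game × List Bool) × (Bool × List Bool) => r.1.1 :=
    PTime.fst (PTime.fst PTime.id)
  have X1 : PTime fun r : (Game × List Bool) × (Bool × List Bool) => r.1.2 :=
    PTime.snd (PTime.fst PTime.id)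
  have q1 : PTime fun r : (Game × List Bool) × (Bool × List Bool) => r.2 := PTime.snd PTime.id
  have h4 : PTime fun r : (Game × List Bool) × (Bool × List Bool) =>
      (r.2.1, cd S r.1.1 r.1.2 r.2) := PTime.pair (PTime.fst q1) (pfg_cd hS g1 X1 q1)
  exact (PTime.filter (g := fun (_ : Game × List Bool) (q : Bool × List Bool) =>
      q.2.any fun b => b) (PTime.map
    (l := fun p : Game × List Bool => C p.1)
    (g := fun p q => (q.1, cd S p.1 p.2 q))
    (hC.comp (PTime.fst PTime.id)) h4)
    (PTime.any (l := fun r : (Game × List Bool) × (Bool × List Bool) => r.2.2)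
      (g := fun _ b => b) (PTime.snd (PTime.snd PTime.id)) (PTime.snd PTime.id))).congr
    fun _ => rfl

theorem pfg_f1 {S : Game → List Bool → List Bool} {C : Game → List (Bool × List Bool)}
    (hS : PTime (fun p : Game × List Bool => S p.1 p.2)) (hC : PTime C) :
    PTime (fun p : Game × List Bool => f1 S C p.1 p.2) :=
  (PTime.getD (PTime.head? (pfg_fd hS hC)) (PTime.const ((true, []) : Bool × List Bool))).congr
    fun p => by
      unfold f1
      cases fd S C p.1 p.2 <;> rfl

theorem pfg_thm : PFGStmt := by
  intro S C hS hC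
  refine ⟨pfg_fd hS hC, ?_, pfg_f1 hS hC⟩
  have g1 : PTime fun p : Game × List Bool => p.1 := PTime.fst PTime.id
  have X1 : PTime fun p : Game × List Bool => p.2 := PTime.snd PTime.id
  have hf := pfg_f1 hS hC
  exact (PTime.ite (c := fun p : Game × List Bool => fd S C p.1 p.2 = [])
    (PTime.eq (pfg_fd hS hC) (PTime.const []))
    (PFN66.dif' pma_all g1 X1 pma_all.2.2.2.2.2.1)
    (PFN66.dif' pma_all g1 X1 (PFN66.att' pma_all (PTime.fst hf) g1 X1
      (PTime.snd hf)))).congr fun _ => rfl

end Pool.BHG
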